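import Pool.Agent.W128.VA.Stm

/-!
VA-HH for MP_11a9fb_al: the Heisenberg relations on the Fock space.
-/

set_option autoImplicit false

namespace Pool.Agent.W705.VA

open Pool.Agent.W128.VA

theorem pderiv_comm (i j : ℕ) (p : R0) :
    MvPolynomial.pderiv i (MvPolynomial.pderiv j p) =
      MvPolynomial.pderiv j (MvPolynomial.pderiv i p) := by
  have h : ⁅(MvPolynomial.pderiv i : Derivation ℂ R0 R0),
      (MvPolynomial.pderiv j : Derivation ℂ R0 R0)⁆ = 0 := by
    apply MvPolynomial.derivation_ext
    intro k
    rw [Derivation.commutator_apply]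
    rw [MvPolynomial.pderiv_X, MvPolynomial.pderiv_X]
    by_cases h1 : i = k
    · subst h1
      by_cases h2 : j = i
      · subst h2
        simp
      · rw [Pi.single_eq_of_ne' h2, Pi.single_eq_same]
        simp
    · by_cases h2 : j = k
      · subst h2
        rw [Pi.single_eq_of_ne' h1, Pi.single_eq_same]
        simp
      · rw [Pi.single_eq_of_ne' h1, Pi.single_eq_of_ne' h2]
        simp
  have := congrArg (fun d : Derivation ℂ R0 R0 => d p) h
  simp only [Derivation.commutator_apply] at this
  simpa [sub_eq_zero] using this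

theorem hR_neg {m k : ℤ} (h : m < 0) (p : R0) :
    hR m k p = MvPolynomial.X (-m - 1).toNat * p := by
  simp [hR, h]

theorem hR_zero {k : ℤ} (p : R0) : hR 0 k p = (2 * (k : ℂ)) • p := by
  simp [hR]

theorem hR_pos {m k : ℤ} (h : 0 < m) (p : R0) :
    hR m k p = (2 * (m : ℂ)) • MvPolynomial.pderiv (m - 1).toNat p := by
  simp [hR, h.ne', not_lt.2 h.le]

theorem pd_X (i j : ℕ) (p : R0) : MvPolynomial.pderiv i (MvPolynomial.X j * p) =
    (if i = j then p else 0) + MvPolynomial.X j * MvPolynomial.pderiv i p := by
  rw [Derivation.leibniz, MvPolynomial.pderiv_X, smul_eq_mul, smul_eq_mul, add_comm]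
  congr 1
  by_cases h : i = j
  · subst h; simp
  · rw [Pi.single_eq_of_ne' h, if_neg h, mul_zero]

theorem pd_smul (i : ℕ) (c : ℂ) (p : R0) :
    MvPolynomial.pderiv i (c • p) = c • MvPolynomial.pderiv i p :=
  (MvPolynomial.pderiv i : Derivation ℂ R0 R0).map_smul c p

theorem hR_comm (m n k : ℤ) (p : R0) : hR m k (hR n k p) - hR n k (hR m k p) =
    (if m + n = 0 then (2 * (m : ℂ)) else 0) • p := by
  rcases lt_trichotomy m 0 with hm | hm | hm
  · rcases lt_trichotomy n 0 with hn | hn | hn
    · rw [hR_neg hm, hR_neg hn, hR_neg hm, hR_neg hn, if_neg (by omega), zero_smul]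
      ring
    · subst hn
      rw [hR_neg hm, hR_neg hm, hR_zero, hR_zero, if_neg (by omega), zero_smul, mul_smul_comm,
        sub_self]
    · rw [hR_neg hm, hR_neg hm, hR_pos hn, hR_pos hn, pd_X, mul_smul_comm, ← smul_sub]
      by_cases h : m + n = 0
      · have h1 : (n - 1).toNat = (-m - 1).toNat := by congr 1; omega
        have h2 : (m : ℂ) = -(n : ℂ) := by
          have : m = -n := by omega
          rw [this]; push_cast; ring
        rw [if_pos h1, if_pos h, h2]
        module
      · have h1 : (n - 1).toNat ≠ (-m - 1).toNat := by omega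
        rw [if_neg h1, if_neg h]
        simp
  · subst hm
    rcases lt_trichotomy n 0 with hn | hn | hn
    · rw [hR_neg hn, hR_neg hn, hR_zero, hR_zero, if_neg (by omega), zero_smul, mul_smul_comm,
        sub_self]
    · subst hn
      rw [sub_self]; simp
    · rw [hR_pos hn, hR_pos hn, hR_zero, hR_zero, if_neg (by omega), zero_smul, pd_smul,
        smul_comm, sub_self]
  · rcases lt_trichotomy n 0 with hn | hn | hn
    · rw [hR_neg hn, hR_neg hn, hR_pos hm, hR_pos hm, pd_X, mul_smul_comm, ← smul_sub]
      by_cases h : m + n = 0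
      · have h1 : (m - 1).toNat = (-n - 1).toNat := by congr 1; omega
        rw [if_pos h1, if_pos h, add_sub_cancel_right]
      · have h1 : (m - 1).toNat ≠ (-n - 1).toNat := by omega
        rw [if_neg h1, if_neg h]
        simp
    · subst hn
      rw [hR_pos hm, hR_pos hm, hR_zero, hR_zero, if_neg (by omega), zero_smul, pd_smul,
        smul_comm, sub_self]
    · rw [hR_pos hm, hR_pos hn, hR_pos hm, hR_pos hn, if_neg (by omega), zero_smul, pd_smul,
        pd_smul, pderiv_comm, smul_comm, sub_self]

theorem main : S_HH := by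
  intro m n v
  induction v using Finsupp.induction_linear with
  | zero => simp
  | add f g hf hg =>
    rw [smul_add, ← hf, ← hg]
    simp only [map_add]
    abel
  | single k p =>
    rw [hop_single, hop_single, hop_single, hop_single, ← Finsupp.single_sub, hR_comm,
      Finsupp.smul_single]

end Pool.Agent.W705.VA
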